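import Mathlib

/-!
Trees of height a well order `K`, cofinal branches, cone topologies, strong Kurepa trees,
Aronszajn trees and the diamond-plus principle, in plain Mathlib terms.
-/

namespace Pool.Agent.Lib.MP_f7d510_lc.Char

open Cardinal Set

variable (K : Type) [LinearOrder K]

/-- Level `a` of `T`: the nodes whose set of predecessors is order isomorphic to `Iio a`. -/
def Lev (T : Type) [PartialOrder T] (a : K) : Set T := {t | Nonempty (Iio t ≃o Iio a)}

/-- `T` is a tree of height `K` all of whose levels have size less than that of `K`. -/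
def KTree (T : Type) [PartialOrder T] : Prop :=
  (∀ t : T, ∃ a : K, t ∈ Lev K T a) ∧ ∀ a : K, (Lev K T a).Nonempty ∧ #(Lev K T a) < #K

/-- Cofinal branch: linearly ordered, downward closed, meets every level. -/
def Branch (T : Type) [PartialOrder T] (b : Set T) : Prop :=
  IsChain (· ≤ ·) b ∧ IsLowerSet b ∧ ∀ a : K, (b ∩ Lev K T a).Nonempty

/-- The cone topology on the set of cofinal branches. -/
def branchTop (T : Type) [PartialOrder T] : TopologicalSpace {b : Set T // Branch K T b} :=
  TopologicalSpace.generateFrom {U | ∃ t : T, U = {b | t ∈ b.1}}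

/-- The cone topology on the functions `K → Bool`. -/
def coneTop : TopologicalSpace (K → Bool) :=
  TopologicalSpace.generateFrom {U | ∃ (a : K) (s : K → Bool), U = {g | ∀ x, x < a → g x = s x}}

/-- A Kurepa tree whose branch space maps continuously onto `K → Bool`. -/
def StrongKurepa (T : Type) [PartialOrder T] : Prop :=
  KTree K T ∧ Order.succ #K ≤ #{b : Set T // Branch K T b} ∧
    ∃ F : {b : Set T // Branch K T b} → (K → Bool),
      Function.Surjective F ∧ @Continuous _ _ (branchTop K T) (coneTop K) F

/-- A tree of height `K` with small levels and no cofinal branch. -/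
def Aronszajn (T : Type) [PartialOrder T] : Prop :=
  KTree K T ∧ ∀ b : Set T, ¬ Branch K T b

/-- Diamond-plus on `K`. -/
def DiamondPlus : Prop :=
  ∃ S : K → Set (Set K), (∀ a : K, #(S a) < #K ∧ ∀ X ∈ S a, X ⊆ Iio a) ∧
    ∀ A : Set K, ∃ C : Set K, IsClub C ∧ ∀ a ∈ C, A ∩ Iio a ∈ S a ∧ C ∩ Iio a ∈ S a

end Pool.Agent.Lib.MP_f7d510_lc.Char
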