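import Mathlib
import Pool.Agent.Lib.MP_f7d510_lc.Char.Defs

/-! Height functions of trees, the pointwise form of cone continuity, bounded sets. -/

namespace Pool.Agent.Lib.MP_f7d510_lc.Char

open Cardinal Set

variable {K : Type} [LinearOrder K] {T : Type} [PartialOrder T]

structure HT (ht : T → K) : Prop where
  lt : ∀ s t, s < t → ht s < ht t
  ex : ∀ t x, x ≤ ht t → ∃ s, s ≤ t ∧ ht s = x
  cmp : ∀ s r t : T, s ≤ t → r ≤ t → s ≤ r ∨ r ≤ s

theorem HT.mono {ht : T → K} (H : HT ht) {s t : T} (h : s ≤ t) : ht s ≤ ht t := by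
  rcases h.eq_or_lt with rfl | h
  · exact le_rfl
  · exact (H.lt _ _ h).le

theorem HT.le_of_cmp {ht : T → K} (H : HT ht) {s r : T} (h : s ≤ r ∨ r ≤ s)
    (h' : ht s ≤ ht r) : s ≤ r := by
  rcases h with h | h
  · exact h
  · rcases h.eq_or_lt with rfl | h
    · exact le_rfl
    · exact absurd (H.lt _ _ h) (not_lt.2 h')

theorem HT.le_of {ht : T → K} (H : HT ht) {s r t : T} (hs : s ≤ t) (hr : r ≤ t)
    (h' : ht s ≤ ht r) : s ≤ r := H.le_of_cmp (H.cmp _ _ _ hs hr) h'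

theorem HT.eq_of {ht : T → K} (H : HT ht) {s r t : T} (hs : s ≤ t) (hr : r ≤ t)
    (h' : ht s = ht r) : s = r := le_antisymm (H.le_of hs hr h'.le) (H.le_of hr hs h'.ge)

theorem iso_unique [WellFoundedLT K] {a b : K} (e : Iio a ≃o Iio b) : a = b := by
  have key : ∀ {a b : K}, (Iio a ≃o Iio b) → ¬ a < b := by
    intro a b e hab
    let f : Iio b → Iio b := fun x => ⟨(e.symm x).1, lt_trans (e.symm x).2 hab⟩
    have hf : StrictMono f := fun x y hxy => by
      have : e.symm x < e.symm y := e.symm.strictMono hxy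
      exact this
    have h1 : (⟨a, hab⟩ : Iio b) ≤ f ⟨a, hab⟩ := hf.le_apply
    have h2 : (f ⟨a, hab⟩).1 < a := (e.symm ⟨a, hab⟩).2
    exact absurd h2 (not_lt.2 h1)
  rcases lt_trichotomy a b with h | h | h
  · exact absurd h (key e)
  · exact h
  · exact absurd h (key e.symm)

theorem HT.mem_lev {ht : T → K} (H : HT ht) (t : T) : t ∈ Lev K T (ht t) := by
  let f : Iio t → Iio (ht t) := fun s => ⟨ht s.1, H.lt _ _ s.2⟩
  have hf : Function.Bijective f := by
    constructor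
    · intro s r h
      exact Subtype.ext (H.eq_of s.2.le r.2.le (congrArg Subtype.val h))
    · intro x
      obtain ⟨s, hs, hx⟩ := H.ex t x.1 (le_of_lt x.2)
      have hst : s < t := lt_of_le_of_ne hs (by
        rintro rfl
        exact absurd x.2 (by simp [hx]))
      exact ⟨⟨s, hst⟩, Subtype.ext hx⟩
  refine ⟨⟨Equiv.ofBijective f hf, ?_⟩⟩
  intro s r
  constructor
  · intro h
    exact H.le_of s.2.le r.2.le h
  · intro h
    exact H.mono (show s.1 ≤ r.1 from h)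

theorem HT.lev [WellFoundedLT K] {ht : T → K} (H : HT ht) {t : T} {a : K} :
    t ∈ Lev K T a ↔ ht t = a := by
  constructor
  · rintro ⟨e⟩
    obtain ⟨e'⟩ := H.mem_lev t
    exact iso_unique (e'.symm.trans e)
  · rintro rfl
    exact H.mem_lev t

theorem lev_below {t : T} {a : K} (e : Iio t ≃o Iio a) (s : Iio t) :
    s.1 ∈ Lev K T (e s).1 := by
  refine ⟨⟨⟨fun r => ⟨(e ⟨r.1, lt_trans r.2 s.2⟩).1, ?_⟩,
    fun x => ⟨(e.symm ⟨x.1, lt_trans x.2 (e s).2⟩).1, ?_⟩, ?_, ?_⟩, ?_⟩⟩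
  · have : (⟨r.1, lt_trans r.2 s.2⟩ : Iio t) < s := r.2
    exact e.strictMono this
  · have : (⟨x.1, lt_trans x.2 (e s).2⟩ : Iio a) < e s := x.2
    have h2 := e.symm.strictMono this
    rw [e.symm_apply_apply] at h2
    exact h2
  · intro r
    apply Subtype.ext
    simp
  · intro x
    apply Subtype.ext
    simp
  · intro r r'
    simp only [Equiv.coe_fn_mk, Subtype.mk_le_mk]
    exact (Subtype.coe_le_coe.trans e.le_iff_le)

theorem exists_HT [WellFoundedLT K] (h : ∀ t : T, ∃ a : K, t ∈ Lev K T a) :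
    ∃ ht : T → K, HT ht := by
  choose ht hht using h
  have e : ∀ t, Iio t ≃o Iio (ht t) := fun t => (hht t).some
  have key : ∀ t (s : Iio t), ht s.1 = (e t s).1 := by
    intro t s
    obtain ⟨e'⟩ := lev_below (e t) s
    exact iso_unique ((e s.1).symm.trans e')
  refine ⟨ht, ⟨?_, ?_, ?_⟩⟩
  · intro s t hst
    rw [key t ⟨s, hst⟩]
    exact (e t ⟨s, hst⟩).2
  · intro t x hx
    rcases hx.eq_or_lt with rfl | hx
    · exact ⟨t, le_rfl, rfl⟩
    · refine ⟨((e t).symm ⟨x, hx⟩).1, le_of_lt ((e t).symm ⟨x, hx⟩).2, ?_⟩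
      rw [key t]
      simp
  · intro s r t hs hr
    rcases hs.eq_or_lt with rfl | hs
    · exact Or.inr hr
    rcases hr.eq_or_lt with rfl | hr
    · exact Or.inl hs.le
    rcases le_total (e t ⟨s, hs⟩) (e t ⟨r, hr⟩) with h | h
    · exact Or.inl ((e t).le_iff_le.1 h)
    · exact Or.inr ((e t).le_iff_le.1 h)

theorem Branch.cmp {b : Set T} (hb : Branch K T b) {s t : T} (hs : s ∈ b) (ht : t ∈ b) :
    s ≤ t ∨ t ≤ s := hb.1.total hs ht

theorem open_branch (a : K) {U : Set {b : Set T // Branch K T b}}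
    (hU : @IsOpen _ (branchTop K T) U) :
    ∀ b ∈ U, ∃ t ∈ b.1, ∀ b' : {b : Set T // Branch K T b}, t ∈ b'.1 → b' ∈ U := by
  have hU' : TopologicalSpace.GenerateOpen
    {U : Set {b : Set T // Branch K T b} | ∃ t : T, U = {b | t ∈ b.1}} U := hU
  clear hU
  induction hU' with
  | basic s hs =>
    obtain ⟨t, rfl⟩ := hs
    intro b hb
    exact ⟨t, hb, fun b' h => h⟩
  | univ =>
    intro b _
    obtain ⟨t, ht, _⟩ := b.2.2.2 a
    exact ⟨t, ht, fun _ _ => mem_univ _⟩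
  | inter s s' _ _ ih ih' =>
    intro b hb
    obtain ⟨t, ht, h⟩ := ih b hb.1
    obtain ⟨t', ht', h'⟩ := ih' b hb.2
    rcases b.2.cmp ht ht' with hc | hc
    · exact ⟨t', ht', fun b' hb' => ⟨h b' (b'.2.2.1 hc hb'), h' b' hb'⟩⟩
    · exact ⟨t, ht, fun b' hb' => ⟨h b' hb', h' b' (b'.2.2.1 hc hb')⟩⟩
  | sUnion S _ ih =>
    intro b hb
    obtain ⟨s, hs, hbs⟩ := hb
    obtain ⟨t, ht, h⟩ := ih s hs b hbs
    exact ⟨t, ht, fun b' hb' => ⟨s, hs, h b' hb'⟩⟩

theorem cont_iff (F : {b : Set T // Branch K T b} → (K → Bool)) :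
    @Continuous _ _ (branchTop K T) (coneTop K) F ↔
      ∀ b a, ∃ t ∈ b.1, ∀ b' : {b : Set T // Branch K T b}, t ∈ b'.1 →
        ∀ x, x < a → F b' x = F b x := by
  letI := branchTop K T
  unfold coneTop
  rw [continuous_generateFrom_iff]
  constructor
  · intro h b a
    have h1 := h {g | ∀ x, x < a → g x = F b x} ⟨a, F b, rfl⟩
    exact open_branch a h1 b (fun _ _ => rfl)
  · rintro h s ⟨a, g, rfl⟩
    rw [isOpen_iff_forall_mem_open]
    intro b hb
    obtain ⟨t, ht, h1⟩ := h b a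
    refine ⟨{b | t ∈ b.1}, ?_, TopologicalSpace.GenerateOpen.basic _ ⟨t, rfl⟩, ht⟩
    intro b' hb' x hx
    rw [h1 b' hb' x hx]
    exact hb x hx

/-- The hypotheses on the well order `K` of type `l⁺`. -/
structure Succ (K : Type) [LinearOrder K] (l : Cardinal.{0}) : Prop where
  inf : ℵ₀ ≤ l
  card : #K = Order.succ l
  seg : ∀ x : K, #(Iio x) ≤ l

theorem Succ.lt_iff {l : Cardinal.{0}} (h : Succ K l) {c : Cardinal.{0}} : c < #K ↔ c ≤ l := by
  rw [h.card, Order.lt_succ_iff]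

theorem Succ.iic {l : Cardinal.{0}} (h : Succ K l) (x : K) : #(Iic x) ≤ l := by
  rw [← Iio_insert]
  refine mk_insert_le.trans ?_
  calc #(Iio x) + 1 ≤ l + l := add_le_add (h.seg x) (one_le_aleph0.trans h.inf)
    _ = l := add_eq_self h.inf

theorem Succ.union {l : Cardinal.{0}} (h : Succ K l) {X Y : Type} {I : Set X} (hI : #I ≤ l)
    (f : X → Set Y) (hf : ∀ x ∈ I, #(f x) ≤ l) : #(⋃ x ∈ I, f x) ≤ l := by
  refine (mk_biUnion_le f I).trans ?_
  have : ⨆ x : I, #(f x.1) ≤ l := ciSup_le' fun x => hf x.1 x.2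
  calc #I * ⨆ x : I, #(f x.1) ≤ l * l := mul_le_mul' hI this
    _ = l := mul_eq_self h.inf

theorem Succ.bdd {l : Cardinal.{0}} (h : Succ K l) {X : Set K} (hX : #X ≤ l) :
    ∃ y, ∀ x ∈ X, x < y := by
  by_contra hc
  push Not at hc
  have h1 : (univ : Set K) ⊆ ⋃ x ∈ X, Iic x := by
    intro y _
    obtain ⟨x, hx, hyx⟩ := hc y
    exact mem_biUnion hx hyx
  have h2 := (mk_le_mk_of_subset h1).trans (h.union hX _ fun x _ => h.iic x)
  rw [mk_univ] at h2
  exact absurd (h.lt_iff.2 h2) (lt_irrefl _)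

theorem Succ.gt {l : Cardinal.{0}} (h : Succ K l) (x : K) : ∃ y, x < y := by
  obtain ⟨y, hy⟩ := h.bdd (X := {x}) (by
    rw [mk_singleton]; exact one_le_aleph0.trans h.inf)
  exact ⟨y, hy x rfl⟩

theorem Succ.closed [WellFoundedLT K] {l : Cardinal.{0}} (h : Succ K l) (f : K → K) (x : K) :
    ∃ d, x ≤ d ∧ ∀ y, y < d → f y < d := by
  have h1 : ∀ z : K, ∃ w, z < w ∧ ∀ y, y ≤ z → f y < w := by
    intro z
    obtain ⟨w, hw⟩ := h.bdd (X := f '' Iic z) (mk_image_le.trans (h.iic z))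
    obtain ⟨w', hw'⟩ := h.gt z
    exact ⟨max w w', lt_max_of_lt_right hw', fun y hy => lt_max_of_lt_left (hw _ ⟨y, hy, rfl⟩)⟩
  choose g hg hg' using h1
  let s : ℕ → K := fun n => g^[n] x
  obtain ⟨w, hw⟩ := h.bdd (X := range s) (by
    have := mk_range_le (f := s)
    rw [mk_nat] at this
    exact this.trans h.inf)
  have hne : ({d | ∀ n, s n ≤ d} : Set K).Nonempty := ⟨w, fun n => (hw _ ⟨n, rfl⟩).le⟩
  obtain ⟨d, hd, hmin⟩ := wellFounded_lt.has_min _ hne
  refine ⟨d, hd 0, fun y hy => ?_⟩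
  have : ¬ ∀ n, s n ≤ y := fun hh => hmin y hh hy
  push Not at this
  obtain ⟨n, hn⟩ := this
  have h2 : s (n + 1) = g (s n) := Function.iterate_succ_apply' g n x
  calc f y < g (s n) := hg' _ _ hn.le
    _ = s (n + 1) := h2.symm
    _ ≤ d := hd _

end Pool.Agent.Lib.MP_f7d510_lc.Char
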