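import Mathlib
import Pool.Agent.Lib.MP_f7d510_lc.Char.Tree

/-! Diamond-plus and an Aronszajn tree give a strong Kurepa tree. -/

namespace Pool.Agent.Lib.MP_f7d510_lc.Char

open Cardinal Set

variable {K : Type} [LinearOrder K]

section Paths

variable {X : Type}

/-- A family of paths in which the value at a point determines all earlier values. -/
def Coh (P : Set (K → X)) : Prop :=
  ∀ p ∈ P, ∀ q ∈ P, ∀ a c, c ≤ a → p a = q a → p c = q c

/-- Nodes of the tree of initial segments of paths. -/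
def Node (P : Set (K → X)) : Type := {n : K × X // ∃ p ∈ P, p n.1 = n.2}

def NodeLe (P : Set (K → X)) (m n : Node P) : Prop :=
  m.1.1 ≤ n.1.1 ∧ ∃ p ∈ P, p m.1.1 = m.1.2 ∧ p n.1.1 = n.1.2

@[reducible] def nodeOrder {P : Set (K → X)} (hP : Coh P) : PartialOrder (Node P) where
  le := NodeLe P
  le_refl := fun n => ⟨le_rfl, by
    obtain ⟨p, hp, h⟩ := n.2
    exact ⟨p, hp, h, h⟩⟩
  le_trans := by
    rintro m n k ⟨h1, p, hp, h2, h3⟩ ⟨h4, q, hq, h5, h6⟩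
    exact ⟨h1.trans h4, q, hq, (hP p hp q hq _ _ h1 (h3.trans h5.symm)).symm.trans h2, h6⟩
  le_antisymm := by
    rintro m n ⟨h1, p, hp, h2, h3⟩ ⟨h4, -⟩
    have h5 := le_antisymm h1 h4
    refine Subtype.ext (Prod.ext h5 ?_)
    rw [← h2, ← h3, h5]

theorem node_HT {P : Set (K → X)} (hP : Coh P) :
    @HT K _ (Node P) (nodeOrder hP) (fun n => n.1.1) := by
  let _ := nodeOrder hP
  refine ⟨?_, ?_, ?_⟩
  · intro m n hmn
    obtain ⟨h1, p, hp, h2, h3⟩ : NodeLe P m n := hmn.le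
    refine lt_of_le_of_ne h1 fun h5 => hmn.ne ?_
    refine Subtype.ext (Prod.ext h5 ?_)
    rw [← h2, ← h3, h5]
  · intro n x hx
    obtain ⟨p, hp, h⟩ := n.2
    exact ⟨⟨(x, p x), p, hp, rfl⟩, ⟨hx, p, hp, rfl, h⟩, rfl⟩
  · rintro m n k ⟨h1, p, hp, h2, h3⟩ ⟨h4, q, hq, h5, h6⟩
    have e := h3.trans h6.symm
    rcases le_total m.1.1 n.1.1 with h | h
    · exact Or.inl ⟨h, p, hp, h2, (hP p hp q hq _ _ h4 e).trans h5⟩
    · exact Or.inr ⟨h, p, hp, (hP p hp q hq _ _ h4 e).trans h5, h2⟩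

end Paths

section Build

variable {U : Type} [PartialOrder U]

/-- `p` is the path attached to the set `A` and the club `C`. -/
structure IsPath (ht : U → K) (u : K → U) (A C : Set K) (p : K → Set K × Set K × U) : Prop where
  c : ∀ a, (p a).1 = C ∩ Iic a
  a : ∀ a, (p a).2.1 = {x | x ∈ A ∧ ∃ d ∈ C, d ≤ a ∧ x < d}
  v : ∀ a, ∃ d, IsLeast {d | d ∈ C ∧ a < d} d ∧ (p a).2.2 ≤ u d
  h : ∀ a, ht (p a).2.2 = a

theorem IsPath.wait {ht : U → K} (H : HT ht) {u : K → U} {A C : Set K}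
    {p : K → Set K × Set K × U} (hp : IsPath ht u A C p) {c a : K} (hca : c ≤ a)
    (hno : ∀ d ∈ (p a).1, d ≤ c) : (p c).2.2 ≤ (p a).2.2 := by
  obtain ⟨d, hd, h1⟩ := hp.v c
  obtain ⟨d', hd', h2⟩ := hp.v a
  have h3 : a < d := by
    by_contra hh
    have : d ∈ (p a).1 := by
      rw [hp.c]
      exact ⟨hd.1.1, not_lt.1 hh⟩
    exact absurd hd.1.2 (not_lt.2 (hno d this))
  have h4 : d = d' :=
    le_antisymm (hd.2 ⟨hd'.1.1, hca.trans_lt hd'.1.2⟩) (hd'.2 ⟨hd.1.1, h3⟩)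
  subst h4
  exact H.le_of h1 h2 (by rw [hp.h, hp.h]; exact hca)

theorem IsPath.coh {ht : U → K} (H : HT ht) {u : K → U} {A C A' C' : Set K}
    {p q : K → Set K × Set K × U} (hp : IsPath ht u A C p) (hq : IsPath ht u A' C' q)
    {a c : K} (hca : c ≤ a) (e : p a = q a) : p c = q c := by
  have eC : C ∩ Iic a = C' ∩ Iic a := by rw [← hp.c, ← hq.c, e]
  have eC1 : ∀ d, d ≤ a → (d ∈ C ↔ d ∈ C') := by
    intro d hd
    have := Set.ext_iff.1 eC d
    simpa [hd] using this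
  have eA : ∀ x, (x ∈ A ∧ ∃ d ∈ C, d ≤ a ∧ x < d) ↔ (x ∈ A' ∧ ∃ d ∈ C', d ≤ a ∧ x < d) := by
    intro x
    have h1 := hp.a a
    rw [e, hq.a a] at h1
    exact (Set.ext_iff.1 h1 x).symm
  refine Prod.ext ?_ (Prod.ext ?_ ?_)
  · rw [hp.c, hq.c]
    ext d
    exact ⟨fun h => ⟨(eC1 d (le_trans h.2 hca)).1 h.1, h.2⟩,
      fun h => ⟨(eC1 d (le_trans h.2 hca)).2 h.1, h.2⟩⟩
  · rw [hp.a, hq.a]
    ext x
    constructor
    · rintro ⟨h1, d, h2, h3, h4⟩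
      exact ⟨((eA x).1 ⟨h1, d, h2, h3.trans hca, h4⟩).1, d, (eC1 d (h3.trans hca)).1 h2, h3, h4⟩
    · rintro ⟨h1, d, h2, h3, h4⟩
      exact ⟨((eA x).2 ⟨h1, d, h2, h3.trans hca, h4⟩).1, d, (eC1 d (h3.trans hca)).2 h2, h3, h4⟩
  · by_cases hno : ∀ d ∈ (p a).1, d ≤ c
    · have h1 := hp.wait H hca hno
      have h2 := hq.wait H hca (by rw [← e]; exact hno)
      rw [← e] at h2
      exact H.eq_of h1 h2 (by rw [hp.h, hq.h])
    · push Not at hno
      obtain ⟨d0, hd0, hcd⟩ := hno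
      rw [hp.c] at hd0
      obtain ⟨d, hd, h1⟩ := hp.v c
      obtain ⟨d', hd', h2⟩ := hq.v c
      have h3 : d ≤ a := (hd.2 ⟨hd0.1, hcd⟩).trans hd0.2
      have h4 : d' ≤ d := hd'.2 ⟨(eC1 d h3).1 hd.1.1, hd.1.2⟩
      have h5 : d ≤ d' := hd.2 ⟨(eC1 d' (h4.trans h3)).2 hd'.1.1, hd'.1.2⟩
      have h6 := le_antisymm h4 h5
      subst h6
      exact H.eq_of h1 h2 (by rw [hp.h, hq.h])

variable [WellFoundedLT K]

theorem exists_path {l : Cardinal.{0}} (h : Succ K l) {ht : U → K} (H : HT ht) {u : K → U}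
    (hu : ∀ d, ht (u d) = d) (A : Set K) {C : Set K} (hC : IsClub C) :
    ∃ p, IsPath ht u A C p := by
  have : ∀ a : K, ∃ v : U, (∃ d, IsLeast {d | d ∈ C ∧ a < d} d ∧ v ≤ u d) ∧ ht v = a := by
    intro a
    obtain ⟨y, hy⟩ := h.gt a
    obtain ⟨z, hz, hyz⟩ := hC.isCofinal y
    have hne : ({d | d ∈ C ∧ a < d} : Set K).Nonempty := ⟨z, hz, hy.trans_le hyz⟩
    obtain ⟨d, hd, hmin⟩ := wellFounded_lt.has_min _ hne
    obtain ⟨v, hv, hv'⟩ := H.ex (u d) a (by rw [hu]; exact hd.2.le)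
    exact ⟨v, ⟨d, ⟨hd, fun x hx => not_lt.1 (hmin x hx)⟩, hv⟩, hv'⟩
  choose v hv hv' using this
  exact ⟨fun a => (C ∩ Iic a, {x | x ∈ A ∧ ∃ d ∈ C, d ≤ a ∧ x < d}, v a),
    ⟨fun _ => rfl, fun _ => rfl, hv, hv'⟩⟩

theorem club_max {C : Set K} (hC : IsClub C) {a : K} (hne : (C ∩ Iic a).Nonempty) :
    ∃ d, IsGreatest (C ∩ Iic a) d := by
  have h1 : (upperBounds (C ∩ Iic a)).Nonempty := ⟨a, fun x hx => hx.2⟩
  obtain ⟨d, hd, hmin⟩ := wellFounded_lt.has_min _ h1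
  have h2 : IsLUB (C ∩ Iic a) d := ⟨hd, fun x hx => not_lt.1 (hmin x hx)⟩
  exact ⟨d, ⟨hC.isLUB_mem inter_subset_left hne h2, h2.2 fun x hx => hx.2⟩, hd⟩

theorem strong_of {l : Cardinal.{0}} (h : Succ K l) (hD : DiamondPlus K) (hU : Aronszajn K U) :
    ∃ (T : Type) (_ : PartialOrder T), StrongKurepa K T := by
  classical
  obtain ⟨S, hS, hG⟩ := hD
  obtain ⟨⟨h1, h2⟩, hno⟩ := hU
  obtain ⟨ht, H⟩ := exists_HT h1
  have : ∀ d : K, ∃ v : U, ht v = d := fun d => by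
    obtain ⟨v, hv⟩ := (h2 d).1
    exact ⟨v, H.lev.1 hv⟩
  choose u hu using this
  let P : Set (K → Set K × Set K × U) := {p | ∃ A C : Set K, IsClub C ∧
    (∀ a ∈ C, A ∩ Iio a ∈ S a ∧ C ∩ Iio a ∈ S a) ∧ IsPath ht u A C p}
  have hP : Coh P := by
    rintro p ⟨A, C, -, -, hp⟩ q ⟨A', C', -, -, hq⟩ a c hca e
    exact hp.coh H hq hca e
  have hex : ∀ A : Set K, ∃ C p, IsClub C ∧ p ∈ P ∧ IsPath ht u A C p := by
    intro A
    obtain ⟨C, hC, hC'⟩ := hG A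
    obtain ⟨p, hp⟩ := exists_path h H hu A hC
    exact ⟨C, p, hC, ⟨A, C, hC, hC', hp⟩, hp⟩
  let _ := nodeOrder hP
  have N : HT (fun n : Node P => n.1.1) := node_HT hP
  have hle : ∀ m n : Node P, m ≤ n ↔ NodeLe P m n := fun _ _ => Iff.rfl
  let F : {b : Set (Node P) // Branch K (Node P) b} → (K → Bool) :=
    fun b x => decide (∃ n ∈ b.1, x ∈ n.1.2.2.1)
  have common : ∀ b : Set (Node P), Branch K (Node P) b → ∀ m ∈ b, ∀ n ∈ b,
      ∃ p ∈ P, p m.1.1 = m.1.2 ∧ p n.1.1 = n.1.2 := by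
    intro b hb m hm n hn
    rcases hb.cmp hm hn with ⟨-, p, hp, h3, h4⟩ | ⟨-, p, hp, h3, h4⟩
    · exact ⟨p, hp, h3, h4⟩
    · exact ⟨p, hp, h4, h3⟩
  have hsurj : Function.Surjective F := by
    intro g
    obtain ⟨C, p, hC, hpP, hp⟩ := hex {x | g x = true}
    have hb : Branch K (Node P) {n | p n.1.1 = n.1.2} := by
      refine ⟨?_, ?_, fun a => ⟨⟨(a, p a), p, hpP, rfl⟩, rfl, N.lev.2 rfl⟩⟩
      · intro m hm n hn _
        rcases le_total m.1.1 n.1.1 with h3 | h3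
        · exact Or.inl ⟨h3, p, hpP, hm, hn⟩
        · exact Or.inr ⟨h3, p, hpP, hn, hm⟩
      · rintro n m ⟨h3, q, hq, h4, h5⟩ hn
        exact (hP p hpP q hq _ _ h3 (Eq.trans hn h5.symm)).trans h4
    refine ⟨⟨_, hb⟩, funext fun x => ?_⟩
    have : (∃ n ∈ ({n | p n.1.1 = n.1.2} : Set (Node P)), x ∈ n.1.2.2.1) ↔ g x = true := by
      constructor
      · rintro ⟨n, hn, hx⟩
        have hn' : p n.1.1 = n.1.2 := hn
        rw [← hn', hp.a] at hx
        exact hx.1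
      · intro hx
        obtain ⟨y, hy⟩ := h.gt x
        obtain ⟨z, hz, hyz⟩ := hC.isCofinal y
        refine ⟨⟨(z, p z), p, hpP, rfl⟩, rfl, ?_⟩
        show x ∈ (p z).2.1
        rw [hp.a]
        exact ⟨hx, z, hz, le_rfl, hy.trans_le hyz⟩
    show decide _ = g x
    rw [Bool.eq_iff_iff, decide_eq_true_iff]
    exact this
  refine ⟨Node P, nodeOrder hP, ⟨fun t => ⟨_, N.mem_lev t⟩, fun a => ⟨?_, ?_⟩⟩, ?_, F, hsurj, ?_⟩
  · obtain ⟨C, p, -, hpP, -⟩ := hex ∅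
    exact ⟨⟨(a, p a), p, hpP, rfl⟩, N.lev.2 rfl⟩
  · rw [h.lt_iff]
    let V : Set (Set K × Set K × U) :=
      (insert ∅ (⋃ d ∈ Iic a, insert d '' S d)) ×ˢ (insert ∅ (⋃ d ∈ Iic a, S d)) ×ˢ Lev K U a
    have ins : ∀ Y : Set (Set K), #Y ≤ l → #(insert ∅ Y : Set (Set K)) ≤ l := by
      intro Y hY
      refine mk_insert_le.trans ?_
      calc #Y + 1 ≤ l + l := add_le_add hY (one_le_aleph0.trans h.inf)
        _ = l := add_eq_self h.inf
    have hV : #V ≤ l := by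
      have a1 := ins _ (h.union (h.iic a) (fun d => insert d '' S d)
        fun d _ => mk_image_le.trans (h.lt_iff.1 (hS d).1))
      have a2 := ins _ (h.union (h.iic a) S fun d _ => h.lt_iff.1 (hS d).1)
      have a3 := h.lt_iff.1 (h2 a).2
      simp only [V, mk_setProd]
      calc _ ≤ l * (l * l) := mul_le_mul' a1 (mul_le_mul' a2 a3)
        _ = l := by rw [mul_eq_self h.inf, mul_eq_self h.inf]
    have hmem : ∀ n : Node P, n.1.1 = a → n.1.2 ∈ V := by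
      intro n hn
      obtain ⟨p, ⟨A, C, hC, hg, hp⟩, hpn⟩ := n.2
      rw [← hpn, hn]
      by_cases hne : (C ∩ Iic a).Nonempty
      · obtain ⟨d, hd, hmax⟩ := club_max hC hne
        refine ⟨Or.inr (mem_biUnion hd.2 ⟨_, (hg d hd.1).2, ?_⟩),
          Or.inr (mem_biUnion hd.2 ?_), H.lev.2 (hp.h _)⟩
        · rw [hp.c]
          ext y
          constructor
          · rintro (rfl | hy)
            · exact hd
            · exact ⟨hy.1, le_trans (le_of_lt hy.2) hd.2⟩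
          · intro hy
            rcases (hmax hy).eq_or_lt with rfl | hlt
            · exact Or.inl rfl
            · exact Or.inr ⟨hy.1, hlt⟩
        · have : (p a).2.1 = A ∩ Iio d := by
            rw [hp.a]
            ext y
            constructor
            · rintro ⟨h3, d', h4, h5, h6⟩
              exact ⟨h3, lt_of_lt_of_le h6 (hmax ⟨h4, h5⟩)⟩
            · rintro ⟨h3, h4⟩
              exact ⟨h3, d, hd.1, hd.2, h4⟩
          rw [this]
          exact (hg d hd.1).1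
      · refine ⟨Or.inl ?_, Or.inl ?_, H.lev.2 (hp.h _)⟩
        · rw [hp.c]
          exact not_nonempty_iff_eq_empty.1 hne
        · rw [hp.a]
          refine eq_empty_of_forall_notMem ?_
          rintro y ⟨-, d, h4, h5, -⟩
          exact hne ⟨d, h4, h5⟩
    refine le_trans ?_ hV
    refine mk_le_of_injective (f := fun n => ⟨n.1.1.2, hmem n.1 (N.lev.1 n.2)⟩) ?_
    intro m n hmn
    exact Subtype.ext (Subtype.ext (Prod.ext ((N.lev.1 m.2).trans (N.lev.1 n.2).symm)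
      (Subtype.mk.inj hmn)))
  · have h3 := mk_le_of_surjective hsurj
    rw [← power_def, mk_bool] at h3
    exact (Order.succ_le_of_lt (cantor _)).trans h3
  · rw [cont_iff]
    intro b c
    have key : ∃ n ∈ b.1, ∃ d ∈ n.1.2.1, c < d := by
      by_contra hh
      push Not at hh
      have up : ∀ m ∈ b.1, ∀ n ∈ b.1, c ≤ m.1.1 → m.1.1 ≤ n.1.1 → m.1.2.2.2 ≤ n.1.2.2.2 := by
        intro m hm n hn h3 h4
        obtain ⟨p, ⟨A, C, -, -, hp⟩, h5, h6⟩ := common _ b.2 m hm n hn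
        rw [← h5, ← h6]
        refine hp.wait H h4 fun d hd => ?_
        rw [h6] at hd
        exact (hh n hn d hd).trans h3
      refine hno {w | ∃ n ∈ b.1, c ≤ n.1.1 ∧ w ≤ n.1.2.2.2} ⟨?_, ?_, fun a => ?_⟩
      · rintro w ⟨m, hm, h3, h4⟩ w' ⟨n, hn, h5, h6⟩ _
        rcases le_total m.1.1 n.1.1 with h7 | h7
        · exact H.cmp _ _ _ (h4.trans (up m hm n hn h3 h7)) h6
        · exact H.cmp _ _ _ h4 (h6.trans (up n hn m hm h5 h7))
      · rintro w w' h3 ⟨n, hn, h4, h5⟩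
        exact ⟨n, hn, h4, le_trans h3 h5⟩
      · obtain ⟨n, hn, h3⟩ := b.2.2.2 (max a c)
        have h4 : n.1.1 = max a c := N.lev.1 h3
        obtain ⟨p, ⟨A, C, -, -, hp⟩, h5⟩ := n.2
        have h6 : ht n.1.2.2.2 = max a c := by rw [← h5, hp.h, h4]
        obtain ⟨w, hw, hw'⟩ := H.ex n.1.2.2.2 a (by rw [h6]; exact le_max_left _ _)
        exact ⟨w, ⟨n, hn, by rw [h4]; exact le_max_right _ _, hw⟩, H.lev.2 hw'⟩
    obtain ⟨n, hn, d, hd, hcd⟩ := key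
    have dec : ∀ b' : {b : Set (Node P) // Branch K (Node P) b}, n ∈ b'.1 → ∀ x, x < c →
        ((∃ m ∈ b'.1, x ∈ m.1.2.2.1) ↔ x ∈ n.1.2.2.1) := by
      intro b' hb' x hx
      refine ⟨?_, fun h3 => ⟨n, hb', h3⟩⟩
      rintro ⟨m, hm, h3⟩
      obtain ⟨p, ⟨A, C, -, -, hp⟩, h5, h6⟩ := common _ b'.2 m hm n hb'
      rw [← h5, hp.a] at h3
      rw [← h6, hp.c] at hd
      rw [← h6, hp.a]
      exact ⟨h3.1, d, hd.1, hd.2, hx.trans hcd⟩
    refine ⟨n, hn, fun b' hb' x hx => ?_⟩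
    show decide _ = decide _
    rw [decide_eq_decide, dec b' hb' x hx, dec b hn x hx]

end Build

end Pool.Agent.Lib.MP_f7d510_lc.Char
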