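import Mathlib
import Pool.Agent.Lib.MP_f7d510_lc.Char.Tree

/-! A strong Kurepa tree gives diamond-plus and an Aronszajn tree. -/

namespace Pool.Agent.Lib.MP_f7d510_lc.Char

open Cardinal Set

variable {K : Type} [LinearOrder K] [WellFoundedLT K] {T : Type} [PartialOrder T]

/-- All branches through `t` have images with the same value at `x`. -/
def Dec (F : {b : Set T // Branch K T b} → (K → Bool)) (t : T) (x : K) : Prop :=
  ∀ b b' : {b : Set T // Branch K T b}, t ∈ b.1 → t ∈ b'.1 → F b x = F b' x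

theorem diamond_of {l : Cardinal.{0}} (h : Succ K l) (hT : StrongKurepa K T) : DiamondPlus K := by
  classical
  obtain ⟨⟨h1, h2⟩, -, F, hF, hc⟩ := hT
  rw [cont_iff] at hc
  obtain ⟨ht, H⟩ := exists_HT h1
  let gA : K → T → Set K := fun a t =>
    {x | x < a ∧ ∃ b : {b : Set T // Branch K T b}, t ∈ b.1 ∧ F b x = true}
  let gC : K → T → Set K := fun a t =>
    {d | d < a ∧ ∀ x, x < d → ∃ s, s ≤ t ∧ ht s < d ∧ Dec F s x}
  refine ⟨fun a => gA a '' Lev K T a ∪ gC a '' Lev K T a, fun a => ⟨?_, ?_⟩, fun A => ?_⟩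
  · have h3 := h.lt_iff.1 (h2 a).2
    rw [h.lt_iff]
    refine (mk_union_le _ _).trans ?_
    calc #(gA a '' Lev K T a) + #(gC a '' Lev K T a) ≤ l + l :=
          add_le_add (mk_image_le.trans h3) (mk_image_le.trans h3)
      _ = l := add_eq_self h.inf
  · rintro X (⟨t, -, rfl⟩ | ⟨t, -, rfl⟩) x hx
    · exact hx.1
    · exact hx.1
  obtain ⟨b, hb⟩ := hF (fun x => decide (x ∈ A))
  have hdec : ∀ x, ∃ s ∈ b.1, Dec F s x := by
    intro x
    obtain ⟨y, hy⟩ := h.gt x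
    obtain ⟨t, htb, h3⟩ := hc b y
    exact ⟨t, htb, fun b1 b2 hb1 hb2 => (h3 b1 hb1 x hy).trans (h3 b2 hb2 x hy).symm⟩
  refine ⟨{d | ∀ x, x < d → ∃ s ∈ b.1, ht s < d ∧ Dec F s x}, ⟨?_, ?_⟩, ?_⟩
  · intro D hD _ _ d hd x hx
    have : ¬ x ∈ upperBounds D := fun hh => absurd (hd.2 hh) (not_le.2 hx)
    simp only [mem_upperBounds, not_forall, not_le] at this
    obtain ⟨d', hd', hxd⟩ := this
    obtain ⟨s, hs, h3, h4⟩ := hD hd' x hxd
    exact ⟨s, hs, h3.trans_le (hd.1 hd'), h4⟩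
  · intro x
    choose s hs hs' using hdec
    obtain ⟨d, hd, hd'⟩ := h.closed (fun y => ht (s y)) x
    exact ⟨d, fun y hy => ⟨s y, hs y, hd' y hy, hs' y⟩, hd⟩
  · intro a ha
    obtain ⟨t, htb, hta⟩ := b.2.2.2 a
    have hta' : ht t = a := H.lev.1 hta
    have below : ∀ s ∈ b.1, ht s < a → s ≤ t := fun s hs h3 =>
      H.le_of_cmp (b.2.cmp hs htb) (by rw [hta']; exact h3.le)
    constructor
    · refine Or.inl ⟨t, hta, ?_⟩
      ext x
      constructor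
      · rintro ⟨hx, b', hb', h3⟩
        obtain ⟨s, hs, h4, h5⟩ := ha x hx
        have h6 := h5 b b' hs (b'.2.2.1 (below s hs h4) hb')
        rw [h3, hb] at h6
        exact ⟨by simpa using h6, hx⟩
      · rintro ⟨hx, hxa⟩
        exact ⟨hxa, b, htb, by rw [hb]; simpa using hx⟩
    · refine Or.inr ⟨t, hta, ?_⟩
      ext d
      constructor
      · rintro ⟨hd, h3⟩
        refine ⟨fun x hx => ?_, hd⟩
        obtain ⟨s, hs, h4⟩ := h3 x hx
        exact ⟨s, b.2.2.1 hs htb, h4⟩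
      · rintro ⟨h3, hd⟩
        refine ⟨hd, fun x hx => ?_⟩
        obtain ⟨s, hs, h4, h5⟩ := h3 x hx
        exact ⟨s, below s hs (h4.trans hd), h4, h5⟩

theorem aronszajn_of {l : Cardinal.{0}} (h : Succ K l) (hT : StrongKurepa K T) :
    ∃ (U : Type) (_ : PartialOrder U), Aronszajn K U := by
  classical
  obtain ⟨⟨h1, h2⟩, -, F, hF, hc⟩ := hT
  rw [cont_iff] at hc
  obtain ⟨ht, H⟩ := exists_HT h1
  obtain ⟨X, hX⟩ : ∃ X : Set K, #X = l :=
    le_mk_iff_exists_set.1 (by rw [h.card]; exact Order.le_succ l)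
  obtain ⟨c, hXc⟩ := h.bdd hX.le
  let W : Set T := {t | ¬ ∀ x, x < c → Dec F t x}
  have hW : IsLowerSet W := by
    intro t s hst htW hs
    exact htW fun x hx b b' hb hb' => hs x hx b b' (b.2.2.1 hst hb) (b'.2.2.1 hst hb')
  have HW : HT (fun t : W => ht t.1) := by
    refine ⟨fun s t hst => H.lt _ _ hst, fun t x hx => ?_, fun s r t hs hr => H.cmp _ _ t.1 hs hr⟩
    obtain ⟨s, hs, hs'⟩ := H.ex t.1 x hx
    exact ⟨⟨s, hW hs t.2⟩, hs, hs'⟩
  refine ⟨W, inferInstance, ⟨fun t => ⟨_, HW.mem_lev t⟩, fun a => ⟨?_, ?_⟩⟩, ?_⟩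
  · by_contra hne
    have hall : ∀ t ∈ Lev K T a, ∀ x, x < c → Dec F t x := by
      intro t hta
      by_contra hh
      exact hne ⟨⟨t, hh⟩, HW.lev.2 (H.lev.1 hta)⟩
    have : ∀ g : X → Bool, ∃ (b : {b : Set T // Branch K T b}) (t : Lev K T a),
        t.1 ∈ b.1 ∧ ∀ x : X, F b x.1 = g x := by
      intro g
      obtain ⟨b, hb⟩ := hF (fun x => if hx : x ∈ X then g ⟨x, hx⟩ else false)
      obtain ⟨t, htb, hta⟩ := b.2.2.2 a
      exact ⟨b, ⟨t, hta⟩, htb, fun x => by rw [hb]; simp⟩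
    choose B N hB hB' using this
    have hinj : Function.Injective N := by
      intro g g' hg
      funext x
      rw [← hB' g x, ← hB' g' x]
      exact hall _ (N g).2 _ (hXc _ x.2) _ _ (hB g) (hg ▸ hB g')
    have h3 := (mk_le_of_injective hinj).trans (h.lt_iff.1 (h2 a).2)
    rw [← power_def, mk_bool, hX] at h3
    exact absurd (cantor l) (not_lt.2 h3)
  · refine lt_of_le_of_lt ?_ (h2 a).2
    refine mk_le_of_injective (f := fun t => ⟨t.1.1, H.lev.2 (HW.lev.1 t.2)⟩) ?_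
    intro s t hst
    exact Subtype.ext (Subtype.ext (Subtype.mk.inj hst))
  · intro b hb
    have hb' : Branch K T (Subtype.val '' b) := by
      refine ⟨?_, ?_, fun a => ?_⟩
      · rintro _ ⟨s, hs, rfl⟩ _ ⟨t, ht', rfl⟩ _
        exact hb.cmp hs ht'
      · rintro _ s hst ⟨t, ht', rfl⟩
        exact ⟨⟨s, hW hst t.2⟩, hb.2.1 (show (⟨s, hW hst t.2⟩ : W) ≤ t from hst) ht', rfl⟩
      · obtain ⟨t, h3, h4⟩ := hb.2.2 a
        exact ⟨t.1, ⟨t, h3, rfl⟩, H.lev.2 (HW.lev.1 h4)⟩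
    obtain ⟨_, ⟨t, -, rfl⟩, h3⟩ := hc ⟨_, hb'⟩ c
    exact t.2 fun x hx b1 b2 hb1 hb2 => (h3 b1 hb1 x hx).trans (h3 b2 hb2 x hx).symm

end Pool.Agent.Lib.MP_f7d510_lc.Char
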